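import Mathlib

namespace Pool.Agent.X175.Cake

lemma pigeon (κ : ℝ) (hκ : 0 < κ) : ∀ (N : ℕ) (t : ℝ), 0 < t → ∃ τ > 0, ∀ φ : ℕ → ℝ,
    φ 0 ≤ τ → t ≤ φ N → ∃ j, φ j < κ * (φ (j + 1)) ^ 2 ∧ τ < κ * (φ (j + 1)) ^ 2 ∧
      0 < φ (j + 1) := by
  intro N
  induction N with
  | zero =>
    intro t ht
    refine ⟨t / 2, by linarith, ?_⟩
    intro φ h1 h2
    linarith
  | succ N ih =>
    intro t ht
    have hs : 0 < κ * t ^ 2 / 2 := by positivity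
    obtain ⟨τ, hτ, h⟩ := ih (κ * t ^ 2 / 2) hs
    refine ⟨min τ (κ * t ^ 2 / 2), lt_min hτ hs, ?_⟩
    intro φ h1 h2
    by_cases h3 : κ * t ^ 2 / 2 ≤ φ N
    · obtain ⟨j, hj1, hj2, hj3⟩ := h φ (h1.trans (min_le_left _ _)) h3
      exact ⟨j, hj1, lt_of_le_of_lt (min_le_left _ _) hj2, hj3⟩
    · push Not at h3
      have h4 : κ * t ^ 2 ≤ κ * (φ (N + 1)) ^ 2 :=
        mul_le_mul_of_nonneg_left (pow_le_pow_left₀ ht.le h2 2) hκ.le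
      have h5 : κ * t ^ 2 / 2 < κ * t ^ 2 := by linarith
      exact ⟨N, by linarith, lt_of_le_of_lt (min_le_right _ _) (by linarith), by linarith⟩


lemma arith1 {b c ℓ r p1 p2 p3 q1 q2 q3 : ℝ}
    (hb : 0 < b) (hb2 : b ≤ 1 / 2) (hc : 0 < c) (hℓ : 0 < ℓ)
    (hp1 : p1 ≤ b ^ 2 * ℓ / 1024) (hp2 : r - b ^ 2 * ℓ / 1024 ≤ p2)
    (hq10 : 0 ≤ q1) (hq2 : q2 ≤ r)
    (hB : (1 + b / 16) * c * p1 + (1 + b / 16) * c * p2 + 1 * p3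
      ≤ (1 + b / 16) * c * q1 + (1 + b / 16) * c * q2 + 1 * q3)
    (hC : (1 + b / 16) ^ 2 * c * q1 + b / 16 * c * q2 + 1 * q3
      ≤ (1 + b / 16) ^ 2 * c * p1 + b / 16 * c * p2 + 1 * p3) : q1 ≤ b * ℓ / 32 := by
  have s1 : (1 + b / 16) * (b / 16) * q1 - q2 ≤ (1 + b / 16) * (b / 16) * p1 - p2 := by
    have : c * ((1 + b / 16) * (b / 16) * q1 - q2) ≤ c * ((1 + b / 16) * (b / 16) * p1 - p2) := by
      linarith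
    exact le_of_mul_le_mul_left this hc
  have hk : (1 + b / 16) * (b / 16) ≤ 1 := by nlinarith
  have hk0 : 0 ≤ (1 + b / 16) * (b / 16) := by positivity
  have s2 : (b / 16) * q1 ≤ 2 * (b ^ 2 * ℓ / 1024) := by
    have h1 : (1 + b / 16) * (b / 16) * p1 ≤ b ^ 2 * ℓ / 1024 := by
      have h2 : (1 + b / 16) * (b / 16) * p1 ≤ (1 + b / 16) * (b / 16) * (b ^ 2 * ℓ / 1024) :=
        mul_le_mul_of_nonneg_left hp1 hk0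
      have h3 : (1 + b / 16) * (b / 16) * (b ^ 2 * ℓ / 1024) ≤ 1 * (b ^ 2 * ℓ / 1024) :=
        mul_le_mul_of_nonneg_right hk (by positivity)
      linarith
    have h4 : (b / 16) * q1 ≤ (1 + b / 16) * (b / 16) * q1 := by
      have : 0 ≤ (b / 16) * (b / 16) * q1 := by positivity
      linarith
    linarith
  have : (b / 16) * q1 ≤ (b / 16) * (b * ℓ / 32) := by
    have e : 2 * (b ^ 2 * ℓ / 1024) = (b / 16) * (b * ℓ / 32) := by ring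
    linarith
  exact le_of_mul_le_mul_left this (by positivity)

lemma arith2 {b ℓ φ0 l r z1 z2 z3 y1 y2 y3 : ℝ}
    (hb : 0 < b) (hb2 : b ≤ 1 / 2) (hℓ : 0 < ℓ) (hℓ1 : ℓ ≤ 1)
    (hφ : φ0 ≤ b ^ 2 / 4096 * ℓ ^ 2)
    (hz1 : z1 ≤ l) (hz2 : z2 ≤ r) (hz3 : z3 ≤ 1)
    (hy2 : y2 ≤ r) (hy3 : 0 ≤ y3)
    (hy : l + r - φ0 ≤ y1 + y2)
    (hE : 1 * y1 + b * ℓ / 64 * y2 + b ^ 2 / 4096 * ℓ ^ 2 * y3
      ≤ 1 * z1 + b * ℓ / 64 * z2 + b ^ 2 / 4096 * ℓ ^ 2 * z3) :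
    (l - z1) + (r - z2) ≤ b * ℓ / 32 := by
  have hbℓ : 0 < b * ℓ := mul_pos hb hℓ
  have hδ1 : b * ℓ / 64 ≤ 1 := by nlinarith
  have hsm0 : 0 ≤ b ^ 2 / 4096 * ℓ ^ 2 := by positivity
  have h1 : b * ℓ / 64 * (l - z1) ≤ 1 * (l - z1) :=
    mul_le_mul_of_nonneg_right hδ1 (by linarith)
  have h2 : b * ℓ / 64 * (r - y2) ≤ 1 * (r - y2) :=
    mul_le_mul_of_nonneg_right hδ1 (by linarith)
  have h3 : b ^ 2 / 4096 * ℓ ^ 2 * z3 ≤ b ^ 2 / 4096 * ℓ ^ 2 * 1 :=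
    mul_le_mul_of_nonneg_left hz3 hsm0
  have h4 : 0 ≤ b ^ 2 / 4096 * ℓ ^ 2 * y3 := mul_nonneg hsm0 hy3
  have s5 : b * ℓ / 64 * ((l - z1) + (r - z2)) ≤ 2 * (b ^ 2 / 4096 * ℓ ^ 2) := by
    linarith
  have : b * ℓ / 64 * ((l - z1) + (r - z2)) ≤ b * ℓ / 64 * (b * ℓ / 32) := by
    have e : b * ℓ / 64 * (b * ℓ / 32) = 2 * (b ^ 2 / 4096 * ℓ ^ 2) := by ring
    linarith
  exact le_of_mul_le_mul_left this (by positivity)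

lemma arith3 {b ℓ c l r x1 x2 x3 z1 z2 z3 : ℝ}
    (hb : 0 < b) (hb2 : b ≤ 1 / 2) (hc : 0 < c)
    (hz1 : z1 ≤ l) (hz2 : z2 ≤ r) 
    (hs : (l - z1) + (r - z2) ≤ b * ℓ / 32)
    (hF : c * z1 + c * z2 + 1 * z3 ≤ c * x1 + c * x2 + 1 * x3)
    (hG : (1 + b / 16) ^ 2 * c * x1 + b / 16 * c * x2 + 1 * x3
      ≤ (1 + b / 16) ^ 2 * c * z1 + b / 16 * c * z2 + 1 * z3) :
    (1 - b / 16) * (r - x2) ≤ ((1 + b / 16) ^ 2 - 1) * (l - x1) + b * ℓ / 32 := by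
  have s7 : ((1 + b / 16) ^ 2 - 1) * x1 - (1 - b / 16) * x2
      ≤ ((1 + b / 16) ^ 2 - 1) * z1 - (1 - b / 16) * z2 := by
    have : c * (((1 + b / 16) ^ 2 - 1) * x1 - (1 - b / 16) * x2)
      ≤ c * (((1 + b / 16) ^ 2 - 1) * z1 - (1 - b / 16) * z2) := by
      linarith
    exact le_of_mul_le_mul_left this hc
  have hth0 : 0 ≤ (1 + b / 16) ^ 2 - 1 := by nlinarith
  have h1 : 0 ≤ ((1 + b / 16) ^ 2 - 1) * (l - z1) := mul_nonneg hth0 (by linarith)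
  have h2 : 0 ≤ (b / 16) * (r - z2) := mul_nonneg (by linarith) (by linarith)
  linarith

lemma arith4 {b ℓ δ l r x1 x2 : ℝ}
    (hb : 0 < b) (hb2 : b ≤ 1 / 2) (hℓ : 0 < ℓ) (hℓ1 : ℓ ≤ 1)
    (hδ0 : 0 ≤ δ) (hδ : δ ≤ b * ℓ / 8192)
    (hl : ℓ - b ^ 2 * ℓ / 1024 ≤ l)
    (s4 : x1 + x2 ≤ r + b * ℓ / 32 + δ)
    (s8 : (1 - b / 16) * (r - x2) ≤ ((1 + b / 16) ^ 2 - 1) * (l - x1) + b * ℓ / 32)
    (s9 : l - x1 ≤ (1 - b) * l + b * ℓ / 64 + b * ℓ / 8192) : False := by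
  have hb2' : b ^ 2 ≤ b / 2 := by nlinarith
  have hbl : b ^ 2 * ℓ ≤ b / 2 * ℓ := mul_le_mul_of_nonneg_right hb2' hℓ.le
  have hbℓ : 0 < b * ℓ := mul_pos hb hℓ
  have hbℓ' : b * ℓ ≤ 1 / 2 * ℓ := mul_le_mul_of_nonneg_right hb2 hℓ.le
  have hl0 : 0 < l := by linarith
  have h1 : (1 - b / 16) * (l - b * ℓ / 32 - δ) ≤ (1 - b / 16) * ((l - x1) + (r - x2)) :=
    mul_le_mul_of_nonneg_left (by linarith) (by linarith)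
  have s10 : (1 - b / 16) * (l - b * ℓ / 32 - δ) ≤
      (1 + b / 16 + b ^ 2 / 256) * (l - x1) + b * ℓ / 32 := by
    have e : (1 + b / 16 + b ^ 2 / 256) * (l - x1) =
      (1 - b / 16) * (l - x1) + ((1 + b / 16) ^ 2 - 1) * (l - x1) := by ring
    linarith
  have h3 : (1 + b / 16 + b ^ 2 / 256) ≤ 1 + b / 8 := by linarith
  have h2 : 0 ≤ (1 - b) * l + b * ℓ / 64 + b * ℓ / 8192 := by
    have : 0 ≤ (1 - b) * l := mul_nonneg (by linarith) hl0.le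
    linarith
  have s11 : (1 + b / 16 + b ^ 2 / 256) * (l - x1) ≤
      (1 + b / 8) * ((1 - b) * l + b * ℓ / 64 + b * ℓ / 8192) := by
    have h1 : (1 + b / 16 + b ^ 2 / 256) * (l - x1) ≤
      (1 + b / 16 + b ^ 2 / 256) * ((1 - b) * l + b * ℓ / 64 + b * ℓ / 8192) :=
      mul_le_mul_of_nonneg_left s9 (by positivity)
    exact h1.trans (mul_le_mul_of_nonneg_right h3 h2)
  have s12 : (1 + b / 8) * ((1 - b) * l) ≤ (1 - 7 * b / 8) * l := by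
    have : 0 ≤ b ^ 2 * l := by positivity
    linarith
  have s13 : (1 + b / 8) * (b * ℓ / 64 + b * ℓ / 8192) ≤ 2 * (b * ℓ / 64 + b * ℓ / 8192) :=
    mul_le_mul_of_nonneg_right (by linarith) (by positivity)
  have s14 : 0 ≤ b / 16 * (b * ℓ / 32 + δ) := by positivity
  have s15 : (13 * b / 16) * l ≤ b * ℓ / 32 + δ + b * ℓ / 32 + 2 * (b * ℓ / 64 + b * ℓ / 8192) := by
    linarith
  have s16 : (13 * b / 16) * (ℓ - b ^ 2 * ℓ / 1024) ≤ (13 * b / 16) * l :=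
    mul_le_mul_of_nonneg_left hl (by positivity)
  have s17 : (13 * b / 16) * (ℓ - b ^ 2 * ℓ / 1024) ≥ (13 * b / 16) * (ℓ / 2) := by
    apply mul_le_mul_of_nonneg_left _ (by positivity)
    linarith
  linarith

/-- the final arithmetic contradiction -/
lemma arith {b c ℓ δ φ0 l r p1 p2 p3 q1 q2 q3 x1 x2 x3 z1 z2 z3 y1 y2 y3 u : ℝ}
    (hb : 0 < b) (hb2 : b ≤ 1 / 2) (hc : 0 < c) (hℓ : 0 < ℓ) (hℓ1 : ℓ ≤ 1)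
    (hδ0 : 0 ≤ δ) (hδ : δ ≤ b ^ 2 / 4096 * ℓ ^ 2)
    (hφ : φ0 ≤ b ^ 2 / 4096 * ℓ ^ 2)
    (hl : ℓ - b ^ 2 * ℓ / 1024 ≤ l)
    (hp1 : p1 ≤ b ^ 2 * ℓ / 1024) (hp2 : r - b ^ 2 * ℓ / 1024 ≤ p2)
    (hq10 : 0 ≤ q1) (hq2 : q2 ≤ r) (hq3 : q3 ≤ 1) (hr : 0 ≤ r) 
    (hx2 : x2 ≤ 1) (hx30 : 0 ≤ x3) (hx3 : x3 ≤ 1)
    (hz1 : z1 ≤ l) (hz2 : z2 ≤ r) (hz3 : z3 ≤ 1)
    (hy2 : y2 ≤ r) (hy3 : 0 ≤ y3)
    (hy : l + r - φ0 ≤ y1 + y2) (hu : 0 ≤ u)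
    (hB : (1 + b / 16) * c * p1 + (1 + b / 16) * c * p2 + 1 * p3
      ≤ (1 + b / 16) * c * q1 + (1 + b / 16) * c * q2 + 1 * q3)
    (hC : (1 + b / 16) ^ 2 * c * q1 + b / 16 * c * q2 + 1 * q3
      ≤ (1 + b / 16) ^ 2 * c * p1 + b / 16 * c * p2 + 1 * p3)
    (hD : 1 * x1 + 1 * x2 + δ * x3 ≤ 1 * q1 + 1 * q2 + δ * q3)
    (hE : 1 * y1 + b * ℓ / 64 * y2 + b ^ 2 / 4096 * ℓ ^ 2 * y3
      ≤ 1 * z1 + b * ℓ / 64 * z2 + b ^ 2 / 4096 * ℓ ^ 2 * z3)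
    (hF : c * z1 + c * z2 + 1 * z3 ≤ c * x1 + c * x2 + 1 * x3)
    (hG : (1 + b / 16) ^ 2 * c * x1 + b / 16 * c * x2 + 1 * x3
      ≤ (1 + b / 16) ^ 2 * c * z1 + b / 16 * c * z2 + 1 * z3)
    (hH : b * (1 * l + b * ℓ / 64 * r + b ^ 2 / 4096 * ℓ ^ 2 * u)
      ≤ 1 * x1 + b * ℓ / 64 * x2 + b ^ 2 / 4096 * ℓ ^ 2 * x3) : False := by
  have hbℓ : 0 < b * ℓ := mul_pos hb hℓ
  have hsm : b ^ 2 / 4096 * ℓ ^ 2 ≤ b * ℓ / 8192 := by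
    have h1 : b * ℓ ≤ 1 / 2 := by
      have := mul_le_mul hb2 hℓ1 hℓ.le (by norm_num : (0:ℝ) ≤ 1 / 2)
      linarith
    have h2 := mul_le_mul_of_nonneg_left h1 hbℓ.le
    have e : b ^ 2 / 4096 * ℓ ^ 2 = (b * ℓ) * (b * ℓ) / 4096 := by ring
    rw [e]
    linarith
  have hsm0 : 0 ≤ b ^ 2 / 4096 * ℓ ^ 2 := by positivity
  have s3 := arith1 hb hb2 hc hℓ hp1 hp2 hq10 hq2 hB hC
  have s4 : x1 + x2 ≤ r + b * ℓ / 32 + δ := by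
    have h1 : 0 ≤ δ * x3 := mul_nonneg hδ0 hx30
    have h2 : δ * q3 ≤ δ * 1 := mul_le_mul_of_nonneg_left hq3 hδ0
    linarith
  have s6 := arith2 hb hb2 hℓ hℓ1 hφ hz1 hz2 hz3 hy2 hy3 hy hE
  have s8 := arith3 hb hb2 hc hz1 hz2 s6 hF hG
  have s9 : l - x1 ≤ (1 - b) * l + b * ℓ / 64 + b * ℓ / 8192 := by
    have h1 : b * ℓ / 64 * x2 ≤ b * ℓ / 64 * 1 := mul_le_mul_of_nonneg_left hx2 (by positivity)
    have h2 : b ^ 2 / 4096 * ℓ ^ 2 * x3 ≤ b ^ 2 / 4096 * ℓ ^ 2 * 1 :=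
      mul_le_mul_of_nonneg_left hx3 hsm0
    have h3 : 0 ≤ b * (b * ℓ / 64 * r) := by positivity
    have h4 : 0 ≤ b * (b ^ 2 / 4096 * ℓ ^ 2 * u) := by positivity
    linarith
  exact arith4 hb hb2 hℓ hℓ1 hδ0 (hδ.trans hsm) hl s4 s8 s9

end Pool.Agent.X175.Cake
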