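import Mathlib

open MeasureTheory Set

namespace Pool.Agent.X175.Cake

/-- `f` is constant on each of finitely many intervals that cover `[0,1]`. -/
def IsPC (f : ℝ → ℝ) : Prop :=
  ∃ P : Set (Set ℝ), P.Finite ∧ (∀ I ∈ P, I.OrdConnected) ∧ Icc (0 : ℝ) 1 ⊆ ⋃₀ P ∧
    ∀ I ∈ P, ∀ x ∈ I ∩ Icc (0 : ℝ) 1, ∀ y ∈ I ∩ Icc (0 : ℝ) 1, f x = f y

/-- strictly positive piecewise-constant densities -/
def Hungry (f : ℝ → ℝ) : Prop :=
  IsPC f ∧ ∀ x ∈ Icc (0 : ℝ) 1, 0 < f x

lemma isPC_const (c : ℝ) : IsPC (fun _ => c) :=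
  ⟨{univ}, Set.finite_singleton _, by
    intro I hI; rw [Set.mem_singleton_iff.1 hI]; exact Set.ordConnected_univ,
    by intro x _; exact ⟨univ, rfl, trivial⟩, by intros; rfl⟩

lemma IsPC.comp₂ {f g : ℝ → ℝ} (hf : IsPC f) (hg : IsPC g) (φ : ℝ → ℝ → ℝ) :
    IsPC (fun x => φ (f x) (g x)) := by
  obtain ⟨P, hPf, hPo, hPc, hP⟩ := hf
  obtain ⟨Q, hQf, hQo, hQc, hQ⟩ := hg
  refine ⟨Set.image2 (fun I J => I ∩ J) P Q, hPf.image2 _ hQf, ?_, ?_, ?_⟩
  · rintro _ ⟨I, hI, J, hJ, rfl⟩
    exact (hPo I hI).inter (hQo J hJ)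
  · intro x hx
    obtain ⟨I, hI, hxI⟩ := hPc hx
    obtain ⟨J, hJ, hxJ⟩ := hQc hx
    exact ⟨I ∩ J, ⟨I, hI, J, hJ, rfl⟩, hxI, hxJ⟩
  · rintro _ ⟨I, hI, J, hJ, rfl⟩ x hx y hy
    have h1 := hP I hI x ⟨hx.1.1, hx.2⟩ y ⟨hy.1.1, hy.2⟩
    have h2 := hQ J hJ x ⟨hx.1.2, hx.2⟩ y ⟨hy.1.2, hy.2⟩
    simp only [h1, h2]

open Classical in
/-- a set whose indicator is piecewise constant -/
def PCSet (K : Set ℝ) : Prop := IsPC (fun x => if x ∈ K then 1 else 0)

open Classical in
lemma pcSet_ordConnected {I : Set ℝ} (hI : I.OrdConnected) : PCSet I := by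
  refine ⟨{I, {x | ∀ y ∈ I, x < y}, {x | ∀ y ∈ I, y < x}}, by simp, ?_, ?_, ?_⟩
  · intro J hJ
    rcases hJ with rfl | rfl | rfl
    · exact hI
    · refine ⟨fun a _ b hb x hx y hy => lt_of_le_of_lt hx.2 (hb y hy)⟩
    · refine ⟨fun a ha b _ x hx y hy => lt_of_lt_of_le (ha y hy) hx.1⟩
  · intro x _
    by_cases hx : x ∈ I
    · exact ⟨I, by simp, hx⟩
    · by_cases h : ∃ y ∈ I, y < x
      · obtain ⟨y, hy, hyx⟩ := h
        refine ⟨{x | ∀ y ∈ I, y < x}, by simp, ?_⟩
        intro z hz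
        by_contra hzx
        push Not at hzx
        exact hx (hI.out hy hz ⟨hyx.le, hzx⟩)
      · push Not at h
        refine ⟨{x | ∀ y ∈ I, x < y}, by simp, ?_⟩
        intro z hz
        exact lt_of_le_of_ne (h z hz) (fun e => hx (e ▸ hz))
  · intro J hJ x hx y hy
    rcases hJ with rfl | rfl | rfl
    · simp [hx.1, hy.1]
    · have h1 : x ∉ I := fun h => lt_irrefl _ (hx.1 x h)
      have h2 : y ∉ I := fun h => lt_irrefl _ (hy.1 y h)
      simp [h1, h2]
    · have h1 : x ∉ I := fun h => lt_irrefl _ (hx.1 x h)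
      have h2 : y ∉ I := fun h => lt_irrefl _ (hy.1 y h)
      simp [h1, h2]

open Classical in
lemma PCSet.union {K L : Set ℝ} (hK : PCSet K) (hL : PCSet L) : PCSet (K ∪ L) := by
  have := IsPC.comp₂ hK hL (fun a b => max a b)
  unfold PCSet
  convert this using 2 with x
  by_cases h1 : x ∈ K <;> by_cases h2 : x ∈ L <;> simp [h1, h2]

open Classical in
lemma PCSet.inter {K L : Set ℝ} (hK : PCSet K) (hL : PCSet L) : PCSet (K ∩ L) := by
  have := IsPC.comp₂ hK hL (fun a b => min a b)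
  unfold PCSet
  convert this using 2 with x
  by_cases h1 : x ∈ K <;> by_cases h2 : x ∈ L <;> simp [h1, h2]

open Classical in
lemma pcSet_biUnion {ι : Type*} (t : Finset ι) (f : ι → Set ℝ) (h : ∀ i ∈ t, PCSet (f i)) :
    PCSet (⋃ i ∈ t, f i) := by
  induction t using Finset.induction_on with
  | empty =>
    unfold PCSet
    simpa using isPC_const 0
  | insert a s ha ih =>
    rw [Finset.set_biUnion_insert]
    exact (h a (by simp)).union (ih (fun i hi => h i (by simp [hi])))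

/-- Lebesgue measure on the cake -/
noncomputable def lam : Measure ℝ := volume.restrict (Icc (0 : ℝ) 1)

instance : IsFiniteMeasure lam := by unfold lam; infer_instance

lemma lam_univ : lam.real univ = 1 := by
  unfold lam
  simp [Measure.real]

/-- approximation of measurable sets by piecewise-constant ones -/
lemma approx {S : Set ℝ} (hS : MeasurableSet S) {e : ℝ} (he : 0 < e) :
    ∃ K : Set ℝ, MeasurableSet K ∧ PCSet K ∧ lam.real (S \ K) < e ∧ lam.real (K \ S) < e := by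
  have hS' : MeasurableSet (S ∩ Icc (0:ℝ) 1) := hS.inter measurableSet_Icc
  have hfin : volume (S ∩ Icc (0:ℝ) 1) ≠ ⊤ :=
    ((measure_mono inter_subset_right).trans_lt (by simp)).ne
  have he' : ENNReal.ofReal e ≠ 0 := by simpa using he
  obtain ⟨U, hU, hUo, _, hUd⟩ := hS'.exists_isOpen_diff_lt hfin he'
  obtain ⟨C, hC, hCc, hCd⟩ := hS'.exists_isCompact_diff_lt hfin he'
  have hball : ∀ x ∈ C, ∃ r > 0, Metric.ball x r ⊆ U := fun x hx =>
    Metric.isOpen_iff.1 hUo x (hU (hC hx))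
  choose! r hr hrU using hball
  obtain ⟨t, htC, ht⟩ := hCc.elim_nhds_subcover (fun x => Metric.ball x (r x))
    (fun x hx => Metric.ball_mem_nhds x (hr x hx))
  set K : Set ℝ := ⋃ x ∈ t, Metric.ball x (r x) with hKdef
  have hKU : K ⊆ U := by
    intro y hy
    simp only [hKdef, mem_iUnion] at hy
    obtain ⟨x, hx, hy⟩ := hy
    exact hrU x (htC x hx) hy
  have hKm : MeasurableSet K := Finset.measurableSet_biUnion _ (fun _ _ => measurableSet_ball)
  refine ⟨K, hKm, ?_, ?_, ?_⟩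
  · apply pcSet_biUnion
    intro i _
    apply pcSet_ordConnected
    rw [Real.ball_eq_Ioo]
    exact ordConnected_Ioo
  · unfold lam Measure.real
    rw [Measure.restrict_apply (hS.diff hKm)]
    have h1 : (S \ K) ∩ Icc (0:ℝ) 1 ⊆ (S ∩ Icc (0:ℝ) 1) \ C := by
      rintro x ⟨⟨h1, h2⟩, h3⟩
      exact ⟨⟨h1, h3⟩, fun h => h2 (ht h)⟩
    have h2 := (measure_mono h1).trans_lt hCd
    exact (ENNReal.toReal_lt_of_lt_ofReal h2)
  · unfold lam Measure.real
    rw [Measure.restrict_apply (hKm.diff hS)]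
    have h1 : (K \ S) ∩ Icc (0:ℝ) 1 ⊆ U \ (S ∩ Icc (0:ℝ) 1) := by
      rintro x ⟨⟨h1, h2⟩, h3⟩
      exact ⟨hKU h1, fun h => h2 h.1⟩
    have h2 := (measure_mono h1).trans_lt hUd
    exact (ENNReal.toReal_lt_of_lt_ofReal h2)

open Classical in
/-- the density with value `a` on `L`, `b` on `K \ L`, `c` off `K` -/
noncomputable def D (K L : Set ℝ) (a b c : ℝ) : ℝ → ℝ :=
  fun x => if x ∈ L then a else if x ∈ K then b else c

open Classical in
lemma D_pc {K L : Set ℝ} (hK : PCSet K) (hL : PCSet L) (a b c : ℝ) : IsPC (D K L a b c) := by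
  have := IsPC.comp₂ hL hK (fun u v => if u = 1 then a else if v = 1 then b else c)
  convert this using 2 with x
  unfold D
  by_cases h1 : x ∈ K <;> by_cases h2 : x ∈ L <;> simp [h1, h2]

lemma D_hungry {K L : Set ℝ} (hK : PCSet K) (hL : PCSet L) {a b c : ℝ} (ha : 0 < a) (hb : 0 < b)
    (hc : 0 < c) : Hungry (D K L a b c) := by
  refine ⟨D_pc hK hL a b c, fun x _ => ?_⟩
  unfold D
  split_ifs <;> assumption

lemma D_eq {K L : Set ℝ} (hLK : L ⊆ K) (a c : ℝ) : D K L a a c = D K ∅ a a c := by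
  funext x
  unfold D
  by_cases h1 : x ∈ L
  · have := hLK h1
    simp [h1, this]
  · simp [h1]

lemma D_const (K L : Set ℝ) (a : ℝ) : D K L a a a = fun _ => a := by
  funext x
  unfold D
  split_ifs <;> rfl

/-- value of a set for a density -/
noncomputable def val (f : ℝ → ℝ) (X : Set ℝ) : ℝ := ∫ x in X, f x ∂lam

lemma D_integrable {K L : Set ℝ} (hK : MeasurableSet K) (hL : MeasurableSet L) (a b c : ℝ) :
    Integrable (D K L a b c) lam := by
  classical
  have h1 : D K L a b c = L.piecewise (fun _ => a) (K.piecewise (fun _ => b) (fun _ => c)) := by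
    funext x
    unfold D Set.piecewise
    by_cases h1 : x ∈ L <;> by_cases h2 : x ∈ K <;> simp [h1, h2]
  rw [h1]
  apply Integrable.piecewise hL
  · exact (integrable_const a).integrableOn
  · apply Integrable.integrableOn
    apply Integrable.piecewise hK
    · exact (integrable_const b).integrableOn
    · exact (integrable_const c).integrableOn

lemma val_D {K L X : Set ℝ} (hK : MeasurableSet K) (hL : MeasurableSet L) (hLK : L ⊆ K)
    (hX : MeasurableSet X) (a b c : ℝ) :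
    val (D K L a b c) X
      = a * lam.real (X ∩ L) + b * lam.real (X ∩ (K \ L)) + c * lam.real (X \ K) := by
  unfold val
  have hi := D_integrable hK hL a b c
  rw [← integral_inter_add_sdiff hK (hi.integrableOn), ← integral_inter_add_sdiff hL (hi.integrableOn)]
  have e1 : ∫ x in X ∩ K ∩ L, D K L a b c x ∂lam = a * lam.real (X ∩ L) := by
    have : X ∩ K ∩ L = X ∩ L := by
      rw [inter_assoc, inter_eq_right.2 hLK]
    rw [this, setIntegral_congr_fun (g := fun _ => a) (hX.inter hL), setIntegral_const]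
    · simp [mul_comm]
    · intro x hx
      simp [D, hx.2]
  have e2 : ∫ x in (X ∩ K) \ L, D K L a b c x ∂lam = b * lam.real (X ∩ (K \ L)) := by
    rw [inter_diff_assoc, setIntegral_congr_fun (g := fun _ => b) (hX.inter (hK.diff hL)),
      setIntegral_const]
    · simp [mul_comm]
    · intro x hx
      simp [D, hx.2.1, hx.2.2]
  have e3 : ∫ x in X \ K, D K L a b c x ∂lam = c * lam.real (X \ K) := by
    rw [setIntegral_congr_fun (g := fun _ => c) (hX.diff hK), setIntegral_const]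
    · simp [mul_comm]
    · intro x hx
      have : x ∉ L := fun h => hx.2 (hLK h)
      simp [D, hx.2, this]
  rw [e1, e2, e3]

end Pool.Agent.X175.Cake
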