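import Mathlib
import Pool.Agent.X175.Cake.Basic
import Pool.Agent.X175.Cake.Arith

open MeasureTheory Set

namespace Pool.Agent.X175.Cake

/-- reduced data: `A f g` is the piece of agent 1, agent 2 gets the rest -/
structure Reduced (A : (ℝ → ℝ) → (ℝ → ℝ) → Set ℝ) (b : ℝ) : Prop where
  meas : ∀ f g, Hungry f → Hungry g → MeasurableSet (A f g)
  T1 : ∀ f f' g, Hungry f → Hungry f' → Hungry g → val f (A f' g) ≤ val f (A f g)
  T2 : ∀ f g g', Hungry f → Hungry g → Hungry g' → val g (A f g) ≤ val g (A f g')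
  G1 : ∀ f g, Hungry f → Hungry g → b * val f univ ≤ val f (A f g)
  G2 : ∀ f g, Hungry f → Hungry g → val g (A f g) ≤ (1 - b) * val g univ

lemma val_const_one {X : Set ℝ} : val (fun _ => 1) X = lam.real X := by
  unfold val
  simp

lemma val_D2 {K X : Set ℝ} (hK : MeasurableSet K) (hX : MeasurableSet X) (a c : ℝ) :
    val (D K ∅ a a c) X = a * lam.real (X ∩ K) + c * lam.real (X \ K) := by
  rw [val_D hK MeasurableSet.empty (empty_subset _) hX]
  simp

lemma pcSet_empty : PCSet (∅ : Set ℝ) := pcSet_ordConnected ordConnected_empty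

lemma real_le_one (X : Set ℝ) : lam.real X ≤ 1 := by
  rw [← lam_univ]
  exact measureReal_mono (subset_univ _)

lemma split3 {K L X : Set ℝ} (hK : MeasurableSet K) (hL : MeasurableSet L) (hLK : L ⊆ K)
    (hX : MeasurableSet X) :
    lam.real (X ∩ L) + lam.real (X ∩ (K \ L)) = lam.real (X ∩ K) := by
  have h := measureReal_inter_add_sdiff (μ := lam) (s := (X ∩ K)) hL
  rw [inter_assoc, inter_eq_right.2 hLK, inter_sdiff_assoc] at h
  exact h

theorem core_false {A : (ℝ → ℝ) → (ℝ → ℝ) → Set ℝ} {b : ℝ} (hb : 0 < b) (hb2 : b ≤ 1 / 2)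
    (hA : Reduced A b) : False := by
  set κ : ℝ := b ^ 2 / 4096 with hκ
  have hκ0 : 0 < κ := by positivity
  set t : ℝ := b ^ 2 / 4 with ht
  have ht0 : 0 < t := by positivity
  obtain ⟨N, hN⟩ := pow_unbounded_of_one_lt (8 / b ^ 2) (show (1 : ℝ) < 1 + b / 16 by linarith)
  obtain ⟨τ, hτ, hpig⟩ := pigeon κ hκ0 N t ht0
  set τ0 : ℝ := min τ (b / 2) with hτ0
  have hτ00 : 0 < τ0 := lt_min hτ (by linarith)
  have hτ0τ : τ0 ≤ τ := min_le_left _ _
  have hτ0b : τ0 ≤ b / 2 := min_le_right _ _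
  set ε : ℝ := τ0 / 8 with hε
  set δ : ℝ := τ0 / 2 with hδ
  have hε0 : 0 < ε := by positivity
  have hδ0 : 0 < δ := by positivity
  set one : ℝ → ℝ := fun _ => 1 with hone
  have Hone : Hungry one := ⟨isPC_const 1, fun _ _ => one_pos⟩
  have hSm := hA.meas one one Hone Hone
  set S : Set ℝ := A one one with hS
  have hSb : b ≤ lam.real S := by
    have := hA.G1 one one Hone Hone
    rw [val_const_one, val_const_one, lam_univ] at this
    linarith
  obtain ⟨K, hKm, hKp, hSK, hKS⟩ := approx hSm hε0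
  set k : ℝ := lam.real K with hk
  have hk1 : k ≤ 1 := real_le_one K
  -- decompositions with respect to K
  have hsplitK : ∀ X : Set ℝ, lam.real (X ∩ K) + lam.real (X \ K) = lam.real X := fun X =>
    measureReal_inter_add_sdiff (μ := lam) (s := X) hKm
  have hXK : ∀ X : Set ℝ, lam.real (X ∩ K) ≤ k := fun X => measureReal_mono inter_subset_right
  have hSKk : k - ε ≤ lam.real (S ∩ K) := by
    have h := measureReal_inter_add_sdiff (μ := lam) (s := K) hSm
    rw [inter_comm] at h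
    linarith
  have hkb : b / 2 ≤ k := by
    have h := hsplitK S
    have h2 := hXK S
    linarith
  -- the densities
  have HG : ∀ c : ℝ, 0 < c → Hungry (D K ∅ c c 1) := fun c hc =>
    D_hungry hKp pcSet_empty hc hc one_pos
  have HF : Hungry (D K ∅ 1 1 δ) := D_hungry hKp pcSet_empty one_pos one_pos hδ0
  set F : ℝ → ℝ := D K ∅ 1 1 δ with hF
  set φ : ℕ → ℝ := fun j =>
    k - lam.real (A F (D K ∅ (1 / 2 * (1 + b / 16) ^ j) (1 / 2 * (1 + b / 16) ^ j) 1) ∩ K) with hφ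
  have hpow : ∀ j : ℕ, 0 < 1 / 2 * (1 + b / 16) ^ j := fun j => by positivity
  -- start
  have hstart : φ 0 ≤ τ := by
    have hG := HG (1 / 2) (by norm_num)
    have hzm := hA.meas one _ Hone hG
    have h1 := hA.T2 one (D K ∅ (1/2) (1/2) 1) one Hone hG Hone
    have h2 := hA.T2 one one (D K ∅ (1/2) (1/2) 1) Hone Hone hG
    rw [val_D2 hKm hzm, val_D2 hKm hSm] at h1
    rw [val_const_one, val_const_one] at h2
    have h3 := hsplitK (A one (D K ∅ (1/2) (1/2) 1))
    have h4 := hsplitK S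
    have h5 := hXK S
    have hym := hA.meas F _ HF hG
    have h6 := hA.T1 F one (D K ∅ (1/2) (1/2) 1) HF Hone hG
    rw [hF, val_D2 hKm hym, val_D2 hKm hzm] at h6
    have h7 : (0:ℝ) ≤ lam.real (A one (D K ∅ (1/2) (1/2) 1) \ K) := measureReal_nonneg
    have h8 : lam.real (A (D K ∅ 1 1 δ) (D K ∅ (1/2) (1/2) 1) \ K) ≤ 1 := real_le_one _
    have h9 : δ * lam.real (A (D K ∅ 1 1 δ) (D K ∅ (1/2) (1/2) 1) \ K) ≤ δ * 1 :=
      mul_le_mul_of_nonneg_left h8 hδ0.le
    have h10 : 0 ≤ δ * lam.real (A one (D K ∅ (1/2) (1/2) 1) \ K) := mul_nonneg hδ0.le h7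
    have h11 : φ 0 = k - lam.real (A (D K ∅ 1 1 δ) (D K ∅ (1/2) (1/2) 1) ∩ K) := by
      simp [hφ, hF]
    rw [h11]
    linarith
  have hend : t ≤ φ N := by
    set C : ℝ := 1 / 2 * (1 + b / 16) ^ N with hC
    have hC0 : 0 < C := hpow N
    have hC1 : 4 / b ^ 2 ≤ C := by
      rw [hC]
      have : 4 / b ^ 2 = 1 / 2 * (8 / b ^ 2) := by ring
      rw [this]
      linarith
    have hG := HG C hC0
    have hym := hA.meas F _ HF hG
    have h1 := hA.G2 F (D K ∅ C C 1) HF hG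
    rw [val_D2 hKm hym, val_D2 hKm MeasurableSet.univ] at h1
    rw [univ_inter] at h1
    have h2 : lam.real (univ \ K) ≤ 1 := real_le_one _
    have h3 : (0:ℝ) ≤ lam.real (A F (D K ∅ C C 1) \ K) := measureReal_nonneg
    have h4 : (1 - b) * (C * k + 1 * lam.real (univ \ K)) ≤ (1 - b) * (C * k) + 1 := by
      have h0 : 0 ≤ lam.real (univ \ K) := measureReal_nonneg
      nlinarith
    have h5 : C * lam.real (A F (D K ∅ C C 1) ∩ K) ≤ C * ((1 - b) * k + 1 / C) := by
      have : C * ((1 - b) * k + 1 / C) = (1 - b) * (C * k) + 1 := by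
        field_simp
      rw [this]
      linarith
    have h6 := le_of_mul_le_mul_left h5 hC0
    have h7 : 1 / C ≤ b ^ 2 / 4 := by
      rw [div_le_iff₀ hC0]
      have h8 : b ^ 2 / 4 * (4 / b ^ 2) ≤ b ^ 2 / 4 * C := mul_le_mul_of_nonneg_left hC1 (by positivity)
      have h9 : b ^ 2 / 4 * (4 / b ^ 2) = 1 := by field_simp
      linarith
    have h8 : b * (b / 2) ≤ b * k := mul_le_mul_of_nonneg_left hkb hb.le
    show t ≤ k - lam.real (A F (D K ∅ C C 1) ∩ K)
    rw [ht]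
    nlinarith
  obtain ⟨j, hj1, hj2, hj3⟩ := hpig φ hstart hend
  set c : ℝ := 1 / 2 * (1 + b / 16) ^ j with hc
  have hc0 : 0 < c := hpow j
  have hcp : 1 / 2 * (1 + b / 16) ^ (j + 1) = (1 + b / 16) * c := by rw [hc, pow_succ]; ring
  set cp : ℝ := (1 + b / 16) * c with hcp'
  have hcp0 : 0 < cp := by positivity
  set ℓ : ℝ := φ (j + 1) with hℓ
  set yp : Set ℝ := A F (D K ∅ cp cp 1) with hyp
  have hypm : MeasurableSet yp := hA.meas _ _ HF (HG cp hcp0)
  have hℓ' : ℓ = k - lam.real (yp ∩ K) := by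
    rw [hℓ, hφ]
    simp only [hcp]
    rfl
  have hL0m : MeasurableSet (K \ yp) := hKm.diff hypm
  have hL0 : lam.real (K \ yp) = ℓ := by
    have h := measureReal_inter_add_sdiff (μ := lam) (s := K) hypm
    rw [inter_comm] at h
    rw [hℓ']
    linarith
  have hℓ1 : ℓ ≤ 1 := by rw [← hL0]; exact real_le_one _
  have he0 : 0 < b ^ 2 * ℓ / 1024 := by positivity
  obtain ⟨L', hL'm, hL'p, hL'1, hL'2⟩ := approx hL0m he0
  set L : Set ℝ := L' ∩ K with hL
  have hLm : MeasurableSet L := hL'm.inter hKm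
  have hLp : PCSet L := hL'p.inter hKp
  have hLK : L ⊆ K := inter_subset_right
  set l : ℝ := lam.real L with hl
  set r : ℝ := lam.real (K \ L) with hr
  have hlr : l + r = k := by
    have h := measureReal_inter_add_sdiff (μ := lam) (s := K) hLm
    rw [inter_eq_right.2 hLK] at h
    exact h
  have hd1 : lam.real ((K \ yp) \ L) ≤ b ^ 2 * ℓ / 1024 := by
    have : (K \ yp) \ L ⊆ (K \ yp) \ L' := by
      rintro x ⟨h1, h2⟩
      exact ⟨h1, fun h => h2 ⟨h, h1.1⟩⟩
    exact (measureReal_mono this).trans hL'1.le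
  have hd2 : lam.real (L \ (K \ yp)) ≤ b ^ 2 * ℓ / 1024 := by
    have : L \ (K \ yp) ⊆ L' \ (K \ yp) := by
      rintro x ⟨h1, h2⟩
      exact ⟨h1.1, h2⟩
    exact (measureReal_mono this).trans hL'2.le
  have hlℓ : ℓ - b ^ 2 * ℓ / 1024 ≤ l := by
    have h := measureReal_inter_add_sdiff (μ := lam) (s := (K \ yp)) hLm
    have h2 : lam.real ((K \ yp) ∩ L) ≤ l := measureReal_mono inter_subset_right
    linarith
  -- densities at the fine level
  have hGc : ∀ a : ℝ, D K ∅ a a 1 = D K L a a 1 := fun a => (D_eq hLK a 1).symm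
  have hFL : F = D K L 1 1 δ := (D_eq hLK 1 δ).symm
  set G2 : ℝ → ℝ := D K L ((1 + b / 16) ^ 2 * c) (b / 16 * c) 1 with hG2
  have HG2 : Hungry G2 := D_hungry hKp hLp (by positivity) (by positivity) one_pos
  set W : ℝ → ℝ := D K L 1 (b * ℓ / 64) (κ * ℓ ^ 2) with hW
  have HW : Hungry W := D_hungry hKp hLp one_pos (by positivity) (by positivity)
  have HGc := HG c hc0
  have HGp := HG cp hcp0
  set y2 : Set ℝ := A F G2 with hy2
  set x : Set ℝ := A W G2 with hx
  set z : Set ℝ := A W (D K ∅ c c 1) with hz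
  set y0 : Set ℝ := A F (D K ∅ c c 1) with hy0
  have hy2m : MeasurableSet y2 := hA.meas _ _ HF HG2
  have hxm : MeasurableSet x := hA.meas _ _ HW HG2
  have hzm : MeasurableSet z := hA.meas _ _ HW HGc
  have hy0m : MeasurableSet y0 := hA.meas _ _ HF HGc
  have b1 := hA.T2 F (D K ∅ cp cp 1) G2 HF HGp HG2
  have b2 := hA.T2 F G2 (D K ∅ cp cp 1) HF HG2 HGp
  have b3 := hA.T1 F W G2 HF HW HG2
  have b4 := hA.T1 W F (D K ∅ c c 1) HW HF HGc
  have b5 := hA.T2 W (D K ∅ c c 1) G2 HW HGc HG2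
  have b6 := hA.T2 W G2 (D K ∅ c c 1) HW HG2 HGc
  have b7 := hA.G1 W G2 HW HG2
  rw [← hyp, ← hy2, hGc cp, val_D hKm hLm hLK hypm, val_D hKm hLm hLK hy2m] at b1
  rw [← hyp, ← hy2, hG2, val_D hKm hLm hLK hypm, val_D hKm hLm hLK hy2m] at b2
  rw [← hx, ← hy2, hFL, val_D hKm hLm hLK hxm, val_D hKm hLm hLK hy2m] at b3
  rw [← hz, ← hy0, hW, val_D hKm hLm hLK hy0m, val_D hKm hLm hLK hzm] at b4
  rw [← hz, ← hx, hGc c, val_D hKm hLm hLK hzm, val_D hKm hLm hLK hxm] at b5
  rw [← hz, ← hx, hG2, val_D hKm hLm hLK hzm, val_D hKm hLm hLK hxm] at b6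
  rw [← hx, hW, val_D hKm hLm hLK hxm, val_D hKm hLm hLK MeasurableSet.univ] at b7
  rw [univ_inter, univ_inter, ← hl, ← hr] at b7
  have hp1 : lam.real (yp ∩ L) ≤ b ^ 2 * ℓ / 1024 := by
    have : yp ∩ L ⊆ L \ (K \ yp) := by
      rintro u ⟨h1, h2⟩
      exact ⟨h2, fun h => h.2 h1⟩
    exact (measureReal_mono this).trans hd2
  have hp2 : r - b ^ 2 * ℓ / 1024 ≤ lam.real (yp ∩ (K \ L)) := by
    have h := measureReal_inter_add_sdiff (μ := lam) (s := (K \ L)) hypm
    have h2 : (K \ L) \ yp ⊆ (K \ yp) \ L := by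
      rintro u ⟨⟨h1, h2⟩, h3⟩
      exact ⟨⟨h1, h3⟩, h2⟩
    have h3 := (measureReal_mono (μ := lam) h2).trans hd1
    rw [inter_comm] at h
    linarith
  have hφj : lam.real (y0 ∩ K) = k - φ j := by
    have : φ j = k - lam.real (y0 ∩ K) := rfl
    rw [this]; ring
  have hy0s := split3 hKm hLm hLK hy0m
  refine arith (b := b) (c := c) (ℓ := ℓ) (δ := δ) (φ0 := φ j) (l := l) (r := r)
    (u := lam.real (univ \ K)) hb hb2 hc0 hj3 hℓ1 hδ0.le ?_ hj1.le hlℓ hp1 hp2 measureReal_nonneg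
    (measureReal_mono inter_subset_right) (real_le_one _) measureReal_nonneg (real_le_one _)
    measureReal_nonneg (real_le_one _) (measureReal_mono inter_subset_right)
    (measureReal_mono inter_subset_right) (real_le_one _)
    (measureReal_mono inter_subset_right) measureReal_nonneg ?_ measureReal_nonneg
    b1 b2 b3 b4 b5 b6 b7
  · have : δ ≤ τ := by linarith
    exact this.trans hj2.le
  · rw [hy0s, hφj, hlr]

end Pool.Agent.X175.Cake
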